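import Pool.Agent.H82.LVP.NoDPDA
import Pool.Agent.H82.LVP.Verdict

/-!
# MP_c19722_lc: the class `LVCF*` is strictly larger than `DCF`

The language `LVP.Lang` over the alphabet `LVP.Ltr = {0, 1, plus, minus, ask, fin}` consists of

* the words `u fin` such that `u` is a word over `{0, 1, plus, minus}` with as many letters `plus`
  as `minus`, and
* the words `v w x w' ask w^R` such that `w, w'` are words over `{0, 1}`, `x` is a sign
  (`plus` or `minus`) and `v` is a word over `{0, 1, plus, minus}` which is empty or ends with
  a sign.

For every `ε` there is a Las Vegas pushdown automaton for it which answers ? with probability at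
most `ε` on every input, but it is not deterministic context-free.

All definitions are in `Pool/Agent/H82/LVP/Defs.lean`.
-/

namespace Pool.Agent.Results.MP_c19722_lc.LasVegasStar

/-- **`DCF ≠ LVCF*`**: the language `LVP.Lang` belongs to `LVCF*`, but is not deterministic
context-free. -/
theorem result : LVP.InLVCFStar LVP.Lang ∧ ¬ LVP.IsDCF LVP.Lang :=
  ⟨LVP.inLVCFStar, LVP.not_isDCF⟩

end Pool.Agent.Results.MP_c19722_lc.LasVegasStar
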